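import Pool.Agent.UPQ.G.Step
import Pool.Agent.UPQ.G.Fin
import Pool.Agent.UPQ.J.Gauss

/-!
# UPQ/H-Ind: multipliers which depend on the field

The order of a pole of `Lam` does not depend on the multiplier (`poleLe_change`), and `step` needs only one multiplier for
all the quadratic extensions of one field.  A multiplier of finite order is first multiplied by a Gaussian factor without
zeros, so that it becomes bounded in vertical strips (`exists_isMul`).
-/

namespace Pool.Agent.UPQ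

open NumberField IsDedekindDomain Pool.Agent.HWR Pool.Agent.QD Pool.Agent.QD.In Pool.Agent.LD
  Pool.Agent.MD Pool.Agent.THF

/-- towers of at most `n` quadratic extensions: every field has a multiplier, which serves for its quadratic
extensions as well; at the end of the tower the poles in `1 ≤ Re s ≤ 3 / 2` have order at most `r` -/
def TowV {T : Finset ℕ} (D : LocData T) (a : ℕ → ℝ) (r : ℕ) :
    ℕ → ∀ (F : Type) [Field F] [NumberField F], Prop
  | 0, F, _, _ => ∃ Q : ℂ → ℂ, IsAdm Q ∧ HWG D a Q F ∧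
      ∀ z : ℂ, 1 ≤ z.re → z.re ≤ 3 / 2 → PoleLe D a Q F z r
  | n + 1, F, _, _ => (∃ Q : ℂ → ℂ, IsAdm Q ∧ HWG D a Q F ∧
      ∀ (L : Type) [Field L] [NumberField L] [Algebra F L], Module.finrank F L = 2 →
        HWG D a Q L) ∧
      ∀ (L : Type) [Field L] [NumberField L] [Algebra F L], Module.finrank F L = 2 →
        TowV D a r n L

/-- multiplication with an entire function -/
theorem hwg_mul {T : Finset ℕ} (D : LocData T) {a : ℕ → ℝ} {Q E : ℂ → ℂ}
    (hE : Differentiable ℂ E) (hEo : FinOrd E) (F : Type) [Field F] [NumberField F] (h : HWG D a Q F) :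
    HWG D a (fun s => E s * Q s) F := by
  obtain ⟨G, h1, h2, h3, h4⟩ := h
  refine ⟨fun s => E s * G s, hE.mul h1, finOrd_mul hEo h2, fun s hs => ?_, fun s => ?_⟩
  · change E s * G s = E s * Q s * D.Lam a F s
    rw [h3 s hs]
    ring
  · change E s * G s * (E (2 - s) * Q (2 - s)) = D.w F * (E (2 - s) * G (2 - s) * (E s * Q s))
    have h5 := h4 s
    linear_combination E s * E (2 - s) * h5

/-- a multiplier of finite order gives one which is bounded in vertical strips -/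
theorem exists_isMul {T : Finset ℕ} (D : LocData T) (a : ℕ → ℝ) {Q : ℂ → ℂ} (hQ : IsAdm Q) :
    ∃ Q' : ℂ → ℂ, IsMul Q' ∧ ∀ (F : Type) [Field F] [NumberField F],
      HWG D a Q F → HWG D a Q' F := by
  obtain ⟨k, hk⟩ := ek_mul ⟨hQ.diff, hQ.ne, hQ.ord⟩
  exact ⟨_, hk, fun F _ _ h => hwg_mul D (ek_diff k) (ek_finOrd k) F h⟩

/-- the orders of `Q` are finite -/
theorem ord_fin {Q : ℂ → ℂ} (hd : Differentiable ℂ Q) (h0 : ∃ s, Q s ≠ 0) (z : ℂ) :
    analyticOrderAt Q z ≠ ⊤ := by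
  intro h
  obtain ⟨s, hs⟩ := h0
  have h1 : AnalyticOnNhd ℂ Q Set.univ := fun w _ => hd.analyticAt w
  have h2 := h1.eqOn_zero_of_preconnected_of_eventuallyEq_zero isPreconnected_univ
    (Set.mem_univ z) (analyticOrderAt_eq_top.1 h)
  exact hs (h2 (Set.mem_univ s))

/-- the order of the pole does not depend on the multiplier -/
theorem poleLe_change {T : Finset ℕ} (D : LocData T) {a : ℕ → ℝ} {F : Type} [Field F]
    [NumberField F] {Q Q' : ℂ → ℂ} (hQ : Differentiable ℂ Q) (hQ0 : ∃ s, Q s ≠ 0)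
    (hQ' : Differentiable ℂ Q') (hQ0' : ∃ s, Q' s ≠ 0) {z : ℂ} {m : ℕ} (h : HWG D a Q F) (hz : PoleLe D a Q F z m) :
    PoleLe D a Q' F z m := by
  intro G' hG'
  obtain ⟨G, hG, -, hGe, -⟩ := h
  have hz1 := hz G ⟨hG, hGe⟩
  -- `Q' G = Q G'`
  have h1 : Q' * G = Q * G' := by
    have a1 : AnalyticOnNhd ℂ (Q' * G) Set.univ := fun w _ =>
      (hQ'.mul hG).analyticAt w
    have a2 : AnalyticOnNhd ℂ (Q * G') Set.univ := fun w _ =>
      (hQ.mul hG'.1).analyticAt w
    refine a1.eq_of_eventuallyEq (z₀ := 2) a2 ?_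
    have h2 : ∀ᶠ s : ℂ in nhds 2, 3 / 2 < s.re := by
      refine (isOpen_lt continuous_const Complex.continuous_re).mem_nhds ?_
      change (3 / 2 : ℝ) < (2 : ℂ).re
      norm_num
    filter_upwards [h2] with s hs
    change Q' s * G s = Q s * G' s
    rw [hGe s hs, hG'.2 s hs]
    ring
  have b1 : analyticOrderAt (Q' * G) z = analyticOrderAt Q' z + analyticOrderAt G z :=
    analyticOrderAt_mul (hQ'.analyticAt z) (hG.analyticAt z)
  have b2 : analyticOrderAt (Q * G') z = analyticOrderAt Q z + analyticOrderAt G' z :=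
    analyticOrderAt_mul (hQ.analyticAt z) (hG'.1.analyticAt z)
  rw [h1, b2] at b1
  have f1 := ord_fin hQ hQ0 z
  have f2 := ord_fin hQ' hQ0' z
  -- orders
  lift analyticOrderAt Q z to ℕ using f1 with q hq
  lift analyticOrderAt Q' z to ℕ using f2 with q' hq'
  by_cases h3 : analyticOrderAt G' z = ⊤
  · rw [h3]
    simp
  by_cases h4 : analyticOrderAt G z = ⊤
  · rw [h4] at b1
    exfalso
    apply h3
    have : (q : ℕ∞) + analyticOrderAt G' z = ⊤ := by rw [b1]; simp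
    simpa using this
  lift analyticOrderAt G' z to ℕ using h3 with g' hg'
  lift analyticOrderAt G z to ℕ using h4 with g hg
  norm_cast at b1 hz1 ⊢
  omega

/-- the pole orders at the bottom of the tower -/
theorem towv_pole {T : Finset ℕ} (hTp : ∀ p ∈ T, p.Prime)
    (hT : ∀ p : ℕ, p.Prime → p < 101 → p ∈ T) (D : LocData T) {a : ℕ → ℝ}
    (ha : ∀ q : ℕ, |a q| ≤ 2 * Real.sqrt q) (hfr : FrobRel T a)
    (haz : ∀ q : ℕ, ∃ n : ℤ, a q = n) {z : ℂ} (h1 : 1 ≤ z.re) (h2 : z.re ≤ 3 / 2) (r i : ℕ) :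
    ∀ (F : Type) [Field F] [NumberField F], TowV D a r i F →
      ∃ (m : ℕ) (Q : ℂ → ℂ), 2 ^ i * m ≤ r ∧ IsAdm Q ∧ HWG D a Q F ∧ PoleLe D a Q F z m := by
  induction i with
  | zero =>
    rintro F _ _ ⟨Q, hQ, hF, hj⟩
    exact ⟨r, Q, by rw [pow_zero, one_mul], hQ, hF, hj z h1 h2⟩
  | succ i ih =>
    rintro F _ _ ⟨⟨Q, hQ, hF, hL⟩, hT2⟩
    obtain ⟨P, hM, hP⟩ := exists_isMul D a hQ
    obtain ⟨m, hm, hp⟩ := step hTp hT D ha hfr haz F hM h1 h2 (hP F hF) (h0 := r / 2 ^ i)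
      (fun L _ _ _ hd => ⟨hP L (hL L hd), by
        obtain ⟨m, Q', hm, hQ', hL', hp⟩ := ih L (hT2 L hd)
        refine poleLe_mono D ?_ (poleLe_change D hQ'.diff hQ'.ne hM.diff hM.ne hL' hp)
        rw [Nat.le_div_iff_mul_le (by positivity), mul_comm]
        exact hm⟩)
    refine ⟨m, Q, ?_, hQ, hF, poleLe_change D hM.diff hM.ne hQ.diff hQ.ne (hP F hF) hp⟩
    calc 2 ^ (i + 1) * m = 2 ^ i * (2 * m) := by ring
      _ ≤ 2 ^ i * (r / 2 ^ i) := Nat.mul_le_mul_left _ hm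
      _ ≤ r := Nat.mul_div_le _ _

/-- no poles: Hasse-Weil -/
theorem towv_hw {T : Finset ℕ} (hTp : ∀ p ∈ T, p.Prime)
    (hT : ∀ p : ℕ, p.Prime → p < 101 → p ∈ T) (D : LocData T) {a : ℕ → ℝ}
    (ha : ∀ q : ℕ, |a q| ≤ 2 * Real.sqrt q) (hfr : FrobRel T a)
    (haz : ∀ q : ℕ, ∃ n : ℤ, a q = n) {r i : ℕ} (hr : r < 2 ^ i) (F : Type) [Field F]
    [NumberField F] (h : TowV D a r i F) : D.HW a F := by
  have h0 : ∃ Q : ℂ → ℂ, IsAdm Q ∧ HWG D a Q F := by
    cases i with
    | zero =>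
      obtain ⟨Q, hQ, hF, -⟩ := h
      exact ⟨Q, hQ, hF⟩
    | succ i =>
      obtain ⟨⟨Q, hQ, hF, -⟩, -⟩ := h
      exact ⟨Q, hQ, hF⟩
  obtain ⟨Q, hQ, hF⟩ := h0
  have key : ∀ z : ℂ, 1 ≤ z.re → PoleLe D a Q F z 0 := by
    intro z hz
    rcases lt_or_ge (3 / 2 : ℝ) z.re with h1 | h1
    · exact poleLe_right D hT ha hQ.diff h1
    · obtain ⟨m, Q', hm, hQ', hF', hp⟩ := towv_pole hTp hT D ha hfr haz hz h1 r i F h
      have h2 : m = 0 := by
        rcases Nat.eq_zero_or_pos m with h2 | h2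
        · exact h2
        · have := Nat.le_mul_of_pos_right (2 ^ i) h2
          omega
      subst h2
      exact poleLe_change D hQ'.diff hQ'.ne hQ.diff hQ.ne hF' hp
  refine hw_of_poleLe D hT ha hQ hF fun z => ?_
  rcases le_or_gt 1 z.re with h1 | h1
  · exact key z h1
  · have h2 := poleLe_refl D hQ.diff hQ.ne hF (key (2 - z) (by
      rw [Complex.sub_re, Complex.re_ofNat]
      linarith))
    rwa [sub_sub_cancel] at h2

end Pool.Agent.UPQ
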