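import Pool.Agent.UPQ.H.Ind
import Pool.Agent.MD.S.Main

/-!
# UPQ/H-Main: quadratic towers in which the places above `V` have even local degrees

The multiplier `Q` may depend on the field `F`; it serves for `F` and for the quadratic extensions of `F`.
-/

namespace Pool.Agent.UPQ

open NumberField IsDedekindDomain Pool.Agent.HWR Pool.Agent.QD Pool.Agent.QD.In Pool.Agent.LD
  Pool.Agent.MD Pool.Agent.THF

/-- an extension of `F` as an extension of `k` -/
private noncomputable def up {k : Type} [Field k] [NumberField k] (F : Ext k) (L : Type) [Field L]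
    [NumberField L] [Algebra F.F L] : Ext k :=
  { F := L
    alg := ((algebraMap F.F L).comp (algebraMap k F.F)).toAlgebra }

private noncomputable instance upAlg {k : Type} [Field k] [NumberField k] (F : Ext k) (L : Type)
    [Field L] [NumberField L] [i : Algebra F.F L] : Algebra F.F (up F L).F := i

private instance upTow {k : Type} [Field k] [NumberField k] (F : Ext k) (L : Type) [Field L]
    [NumberField L] [Algebra F.F L] : IsScalarTower k F.F (up F L).F :=
  IsScalarTower.of_algebraMap_eq' rfl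

private theorem up_QTn {k : Type} [Field k] [NumberField k] {n : ℕ} {F : Ext k} (h : QTn k n F)
    (L : Type) [Field L] [NumberField L] [Algebra F.F L] (hd : Module.finrank F.F L = 2) :
    QTn k (n + 1) (up F L) :=
  QTn.step (F := F) (F' := up F L) (upAlg F L) (upTow F L) h hd

private theorem main_tow {k : Type} [Field k] [NumberField k] {T : Finset ℕ} (D : LocData T)
    (a : ℕ → ℝ) {V : Finset (HeightOneSpectrum (𝓞 k))} {B r : ℕ}
    (H1 : ∀ n : ℕ, n < B → ∀ F : Ext k, QTn k n F → AllEven V F → ∃ Q : ℂ → ℂ, IsAdm Q ∧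
      HWG D a Q F.F ∧ ∀ (L : Type) [Field L] [NumberField L] [Algebra F.F L],
        Module.finrank F.F L = 2 → HWG D a Q L)
    (H2 : ∀ F : Ext k, QTn k B F → AllEven V F → ∃ Q : ℂ → ℂ, IsAdm Q ∧ HWG D a Q F.F ∧
      ∀ z : ℂ, 1 ≤ z.re → z.re ≤ 3 / 2 → PoleLe D a Q F.F z r) (i : ℕ) :
    ∀ n : ℕ, n + i = B → ∀ F : Ext k, QTn k n F → AllEven V F → TowV D a r i F.F := by
  induction i with
  | zero =>
    intro n hn F hF hE
    obtain rfl : n = B := hn
    exact H2 F hF hE
  | succ i ih =>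
    intro n hn F hF hE
    refine ⟨H1 n (by omega) F hF hE, ?_⟩
    intro L _ _ _ hd
    exact ih (n + 1) (by omega) (up F L) (up_QTn hF L hd) (od_down (F := F) (up F L) hE)

/-- The multiplier `Q` may depend on the field; the condition on the orders of the poles is only needed at the top
level `N + j`. -/
theorem upv_main (k : Type) [Field k] [NumberField k] (T : Finset ℕ) (hTp : ∀ p ∈ T, p.Prime)
    (hT : ∀ p : ℕ, p.Prime → p < 101 → p ∈ T) (D : LocData T) (a : ℕ → ℝ)
    (ha : ∀ q : ℕ, |a q| ≤ 2 * Real.sqrt q) (hfr : FrobRel T a)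
    (haz : ∀ q : ℕ, ∃ n : ℤ, a q = n)
    (V : Finset (HeightOneSpectrum (𝓞 k))) (hV : ∀ v ∈ V, Away k T v) (N j : ℕ)
    (H1 : ∀ n : ℕ, n < N + j → ∀ F : Ext k, QTn k n F → AllEven V F → ∃ Q : ℂ → ℂ, IsAdm Q ∧
      HWG D a Q F.F ∧ ∀ (L : Type) [Field L] [NumberField L] [Algebra F.F L],
        Module.finrank F.F L = 2 → HWG D a Q L)
    (H2 : ∀ F : Ext k, QTn k (N + j) F → AllEven V F → ∃ Q : ℂ → ℂ, IsAdm Q ∧
      HWG D a Q F.F ∧ ∀ z : ℂ, 1 ≤ z.re → z.re ≤ 3 / 2 → PoleLe D a Q F.F z (2 ^ j - 1)) :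
    (∀ n : ℕ, n ≤ N → ∀ F : Ext k, QTn k n F → AllEven V F → D.HW a F.F) ∧
      (∀ n : ℕ, n + 2 ≤ N → ∀ F : Ext k, QTn k (n + 1) F → D.HW a F.F) ∧
      (2 ≤ N → HWpm D a k) := by
  have h1 : ∀ n : ℕ, n ≤ N → ∀ F : Ext k, QTn k n F → AllEven V F → D.HW a F.F := by
    intro n hn F hF hE
    have h2 : 2 ^ j - 1 < 2 ^ (N + j - n) := by
      have h3 : 0 < 2 ^ j := by positivity
      have h4 : 2 ^ j ≤ 2 ^ (N + j - n) := Nat.pow_le_pow_right two_pos (by omega)
      omega
    exact towv_hw hTp hT D ha hfr haz h2 F.F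
      (main_tow D a H1 H2 (N + j - n) n (by omega) F hF hE)
  refine ⟨h1, fun n hn => ?_, fun hN => ?_⟩
  · obtain ⟨M, rfl⟩ : ∃ M, N = M + 2 := ⟨N - 2, by omega⟩
    exact (p1b k T hTp hT D a ha hfr V hV M h1).1 n (by omega)
  · obtain ⟨M, rfl⟩ : ∃ M, N = M + 2 := ⟨N - 2, by omega⟩
    exact (p1b k T hTp hT D a ha hfr V hV M h1).2

end Pool.Agent.UPQ
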