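import Pool.Agent.UPQ.H.Main

/-!
# UPQ/H-Top: the condition on the orders of the poles at the top of the tower only

This is `upv_main` of `H/Main`.
-/

namespace Pool.Agent.UPQ

open NumberField IsDedekindDomain Pool.Agent.HWR Pool.Agent.QD Pool.Agent.QD.In Pool.Agent.LD
  Pool.Agent.MD Pool.Agent.THF

theorem upw_main (k : Type) [Field k] [NumberField k] (T : Finset ℕ) (hTp : ∀ p ∈ T, p.Prime)
    (hT : ∀ p : ℕ, p.Prime → p < 101 → p ∈ T) (D : LocData T) (a : ℕ → ℝ)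
    (ha : ∀ q : ℕ, |a q| ≤ 2 * Real.sqrt q) (hfr : FrobRel T a)
    (haz : ∀ q : ℕ, ∃ n : ℤ, a q = n)
    (V : Finset (HeightOneSpectrum (𝓞 k))) (hV : ∀ v ∈ V, Away k T v) (N j : ℕ)
    (H1 : ∀ n : ℕ, n < N + j → ∀ F : Ext k, QTn k n F → AllEven V F → ∃ Q : ℂ → ℂ, IsAdm Q ∧
      HWG D a Q F.F ∧ ∀ (L : Type) [Field L] [NumberField L] [Algebra F.F L],
        Module.finrank F.F L = 2 → HWG D a Q L)
    (H2 : ∀ F : Ext k, QTn k (N + j) F → AllEven V F → ∃ Q : ℂ → ℂ, IsAdm Q ∧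
      HWG D a Q F.F ∧ ∀ z : ℂ, 1 ≤ z.re → z.re ≤ 3 / 2 → PoleLe D a Q F.F z (2 ^ j - 1)) :
    (∀ n : ℕ, n ≤ N → ∀ F : Ext k, QTn k n F → AllEven V F → D.HW a F.F) ∧
      (∀ n : ℕ, n + 2 ≤ N → ∀ F : Ext k, QTn k (n + 1) F → D.HW a F.F) ∧
      (2 ≤ N → HWpm D a k) :=
  upv_main k T hTp hT D a ha hfr haz V hV N j H1 H2

end Pool.Agent.UPQ
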